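import Mathlib
import Pool.Agent.Helper832_MU.LeoB

/-!
# Leopoldt's conjecture for a Galois extension of `ℚ` and for its real subfield

Let `K` be a number field which is Galois over `ℚ`, embedded into `ℂ`. For every prime `p`, Leopoldt's conjecture
holds for `K` if and only if it holds for `K ∩ ℝ`. (The subfield `K ∩ ℝ` is in general not Galois over `ℚ`.)

Proof. Let `c` be complex conjugation. If `∏ ε_i ^ a_i = 1` is a relation over `ℤ_p`, then so are the relations
`∏ (g ε_i · c g ε_i) ^ a_i = 1`, for all automorphisms `g`, between units of `K ∩ ℝ`. By Leopoldt's conjecture for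
`K ∩ ℝ` they are, modulo torsion, linear combinations over `ℤ_p` of relations over `ℤ`, i.e. `a` is annihilated by an
integral matrix. An integral vector `d` annihilated by this matrix gives a unit `u = ∏ ε_i ^ d_i` such that all
`g u · c g u` are roots of unity; then `|φ (g u)| = 1` for all `g`, so that `u` is a root of unity by Kronecker's
theorem and `d = 0`. Hence the matrix is injective over `ℤ`, and therefore over `ℤ_p`.
-/

set_option autoImplicit false

open NumberField Filter Topology

namespace Pool.Agent.Results.MP_5f2860_nt.RealSubfield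

/-- Leopoldt's conjecture for the number field `K` and the prime `p`, in the form of the frozen
statement: units of `K` congruent to `1` at all primes above `p` which are multiplicatively
independent over `ℤ` stay independent over `ℤ_p` in the product of the completions above `p`. -/
def Leopoldt (K : Type) [Field K] [NumberField K] (p : ℕ) [Fact p.Prime] : Prop :=
  ∀ (n : ℕ) (ε : Fin n → (𝓞 K)ˣ),
    (∀ i, ((ε i : 𝓞 K) - 1) ∈ (Ideal.span {((p : ℕ) : 𝓞 K)}).radical) →
    (∀ c : Fin n → ℤ, ∏ i, ε i ^ c i = 1 → c = 0) →
    ∀ (a : Fin n → PadicInt p) (m : ℕ → Fin n → ℤ),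
      (∀ i, Tendsto (fun k => ((m k i : ℤ) : PadicInt p)) atTop (𝓝 (a i))) →
      (∀ N : ℕ, ∀ᶠ k in atTop,
        ((p : ℕ) : 𝓞 K) ^ N ∣ (((∏ i, ε i ^ m k i : (𝓞 K)ˣ) : 𝓞 K) - 1)) →
      a = 0

/-- the subfield of the elements of `K` with real image under the embedding `φ` -/
def realSubfield {K : Type} [Field K] [NumberField K] (φ : K →+* ℂ) : IntermediateField ℚ K where
  carrier := {x | (φ x).im = 0}
  mul_mem' := fun {a b} ha hb => by
    have ha' : (φ a).im = 0 := ha
    have hb' : (φ b).im = 0 := hb
    show (φ (a * b)).im = 0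
    rw [map_mul, Complex.mul_im, ha', hb', mul_zero, zero_mul, add_zero]
  add_mem' := fun {a b} ha hb => by
    have ha' : (φ a).im = 0 := ha
    have hb' : (φ b).im = 0 := hb
    show (φ (a + b)).im = 0
    rw [map_add, Complex.add_im, ha', hb', add_zero]
  algebraMap_mem' := fun r => by
    show (φ (algebraMap ℚ K r)).im = 0
    rw [eq_ratCast, map_ratCast]
    exact Complex.ratCast_im r
  inv_mem' := fun a ha => by
    have ha' : (φ a).im = 0 := ha
    show (φ a⁻¹).im = 0
    rw [map_inv₀, Complex.inv_im, ha', neg_zero, zero_div]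

/-- Let `K` be a number field which is Galois over `ℚ` and `φ : K → ℂ` an embedding. For every prime `p`,
Leopoldt's conjecture holds for `K` if and only if it holds for the real subfield `K ∩ ℝ`. -/
theorem result (K : Type) [Field K] [NumberField K] [IsGalois ℚ K] (φ : K →+* ℂ) (p : ℕ) [Fact p.Prime] :
    Leopoldt K p ↔ Leopoldt (realSubfield φ) p := by
  obtain ⟨ν, hν⟩ := ComplexEmbedding.exists_comp_symm_eq_of_comp_eq (k := ℚ) φ
    (ComplexEmbedding.conjugate φ) (by ext; simp)
  have hc : ∀ x, φ (ν.symm x) = star (φ x) := fun x => RingHom.congr_fun hν x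
  have h : realSubfield φ = Pool.Agent.Helper832_MU.LeoR.realSub φ := rfl
  constructor
  · intro hK
    rw [h]
    exact Pool.Agent.Helper832_MU.LeoR.up _ hK
  · intro hF
    rw [h] at hF
    exact Pool.Agent.Helper832_MU.LeoR.down φ ν.symm hc hF

end Pool.Agent.Results.MP_5f2860_nt.RealSubfield
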